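import Pool.Agent.H61.KV.TE
import Pool.Agent.H61.KV.TS

/-!
# Kuiper board KV, module MAX

No supporting hyperplane contains a minimal face and a point outside of it.
-/

open Topology Set
open Pool.Agent.H59 Pool.Agent.H64.LB Pool.Agent.H61.KU Pool.Agent.H61.KV

namespace Pool.Agent.H35.KV.MAX

/-- two subspaces which meet in at most a line -/
lemma rank_le {V : Type} [NormedAddCommGroup V] [NormedSpace ℝ V] [FiniteDimensional ℝ V]
    (A B : Submodule ℝ V) (t : V) (h : ∀ v ∈ A, v ∈ B → ∃ c : ℝ, v = c • t) :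
    Module.finrank ℝ A + Module.finrank ℝ B ≤ Module.finrank ℝ (A ⊔ B : Submodule ℝ V) + 1 := by
  have h1 := Submodule.finrank_sup_add_finrank_inf_eq A B
  have h2 : A ⊓ B ≤ Submodule.span ℝ {t} := by
    intro v hv
    obtain ⟨c, hc⟩ := h v hv.1 hv.2
    rw [hc]
    exact Submodule.smul_mem _ _ (Submodule.mem_span_singleton_self t)
  have h3 : Module.finrank ℝ (A ⊓ B : Submodule ℝ V) ≤ 1 :=
    (Submodule.finrank_mono h2).trans
      ((finrank_span_le_card ({t} : Set V)).trans (by simp))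
  omega

/-- a vector in the line of `w` which is a multiple of a nonzero vector of this line -/
lemma line {V : Type} [NormedAddCommGroup V] [NormedSpace ℝ V] (w r t : V) (ht : t ≠ 0) (c c' : ℝ)
    (h : r = c • w) (h' : t = c' • w) : ∃ d : ℝ, r = d • t := by
  have hc : c' ≠ 0 := by
    rintro rfl
    exact ht (by rw [h', zero_smul])
  refine ⟨c / c', ?_⟩
  rw [h', smul_smul, div_mul_cancel₀ c hc]
  exact h

theorem pf_MAX (h1 : T_FCB) (h2 : T_CNC) (h3 : T_ST) (h5 : T_FTU) (h6 : T_FTR) (h7 : T_EBD)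
    (h8 : T_EFR) (h9 : T_MNS) (h10 : T_P1N) (h11 : T_TWB) (h12 : T_SPX) (h13 : T_B2N)
    (h14 : T_EOV) (h15 : T_EXP) (h16 : T_RK4) : T_MAX := by
  intro V _ _ _ m hm hns p hp q hq hqp ξ hξ hξp hξq
  by_contra hne
  have _ := h13
  obtain ⟨hC, -, -, -, -, -, -, -⟩ := h2 V m hm
  have hpC : p ∈ Cn m := hp.1
  obtain ⟨fp1, fp2, fp3, fp4, fp5, -, -⟩ := h1 V (Cn m) p hC hpC
  obtain ⟨u1, u2, u3, -⟩ := h5 V (Cn m) p hC hpC
  obtain ⟨e, he⟩ := hC.pos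
  have he0 : ∀ x ∈ Cn m, 0 ≤ e x := by
    intro x hx
    by_cases h0 : x = 0
    · rw [h0, map_zero]
    · exact (he x hx h0).le
  have hξS : ∀ v ∈ Sp (Cn m) p, ξ v = 0 := h15 V (Cn m) p ξ hξ hξp
  -- the foot of q
  obtain ⟨g, hg⟩ := h3 V m hm p hp q hq
  obtain ⟨hgC, hgq, hgg⟩ := u1 q g hg
  have hqg : q - g ∈ Fc (Cn m) p := u2 q g hq hg
  have hξg : ξ g = 0 := by
    have := hξS (q - g) (Submodule.subset_span hqg)
    rw [map_sub, hξq] at this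
    linarith
  have h00 : Foot (Cn m) p 0 0 := by
    intro r
    rw [sub_zero]
    constructor
    · rintro ⟨a, b⟩
      exact fp5 r a b
    · intro hr
      exact ⟨hr.1, Submodule.subset_span hr⟩
  have hg0 : g ≠ 0 := by
    rintro rfl
    rw [sub_zero] at hqg
    exact hqp hqg
  have hgS : g ∉ Sp (Cn m) p := by
    intro hgS
    exact hg0 (u3 g 0 g 0 (by rw [sub_zero]; exact hgS) hgg h00)
  -- a boundary point t
  have r4 : Module.finrank ℝ (Sp (Cn m) p) = 4 := (h10 V m hm p hp).1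
  obtain ⟨t, ht, -⟩ := h11 V (Cn m) p 0 hC hpC (by omega)
  have htC : t ∈ Cn m := ht.1.1
  have hgtC : g + t ∈ Cn m := hC.add g hgC t htC
  obtain ⟨f1, f2, f3⟩ := h6 V (Cn m) p g t hC hpC hgC ht.1 hgg
  obtain ⟨-, -, htr⟩ := h7 V m hm hns p t hp ht
  have hnM : ¬ Fc (Cn m) (g + t) ⊆ Mh m := by
    intro hsub
    have hh := h8 V m hm hns (g + t) hgtC hsub
    obtain ⟨c, hc⟩ := hh g f1
    obtain ⟨c', hc'⟩ := hh t f2
    obtain ⟨d, hd⟩ := line (g + t) g t ht.2.1 c c' hc hc'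
    apply hgS
    rw [hd]
    exact Submodule.smul_mem _ _ (Submodule.subset_span ht.1)
  obtain ⟨p1, hp1F, hp1⟩ := h9 V m hm (g + t) hgtC hnM
  have hp1C : p1 ∈ Cn m := hp1.1
  obtain ⟨-, -, -, gt4, -, -, -⟩ := h1 V (Cn m) (g + t) hC hgtC
  obtain ⟨-, gp2, -, -, -, -, -⟩ := h1 V (Cn m) p1 hC hp1C
  have hcom : ∀ r ∈ Fc (Cn m) p, r ∈ Fc (Cn m) p1 → ∃ c : ℝ, r = c • t := by
    intro r hr hr1
    exact htr r (f3 r hr (gt4 p1 hp1F hr1))
  -- rank of the face of p + p1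
  have hS1 : ∀ v ∈ Sp (Cn m) p, v ∈ Sp (Cn m) p1 → ∃ c : ℝ, v = c • t :=
    h12 V (Cn m) p p1 t hC hpC hp1C (fun x hx => h3 V m hm p hp x hx) hcom
  have r41 : Module.finrank ℝ (Sp (Cn m) p1) = 4 := (h10 V m hm p1 hp1).1
  have hr7 := rank_le (Sp (Cn m) p) (Sp (Cn m) p1) t hS1
  have hppC : p + p1 ∈ Cn m := hC.add p hpC p1 hp1C
  obtain ⟨s1, s2, s3, s4, -, -, -⟩ := h1 V (Cn m) (p + p1) hC hppC
  obtain ⟨hpF, hp1F'⟩ := s3 p hpC p1 hp1C s1
  have hle : Sp (Cn m) p ⊔ Sp (Cn m) p1 ≤ Sp (Cn m) (p + p1) :=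
    sup_le (Submodule.span_mono (s4 p hpF)) (Submodule.span_mono (s4 p1 hp1F'))
  have hr7' := Submodule.finrank_mono hle
  -- the functional vanishes at p + p1
  have hξt : ξ t = 0 := hξS t (Submodule.subset_span ht.1)
  have hξgt : ξ (g + t) = 0 := by rw [map_add, hξg, hξt, add_zero]
  have hξp1 : ξ p1 = 0 := h15 V (Cn m) (g + t) ξ hξ hξgt p1 (Submodule.subset_span hp1F)
  have hξpp : ξ (p + p1) = 0 := by rw [map_add, hξp, hξp1, add_zero]
  -- the minimal face of γ + t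
  obtain ⟨γ, hγ1, hγ2⟩ := h14 V m hm p hp
  have hγC : γ ∈ Cn m := (u1 γ γ hγ1).1
  have hξγ : ξ γ ≠ 0 := fun h0 => hne (hγ2 ξ hξ hξp h0)
  have hp2 : Ms m (γ + t) := h16 V m hm hns p γ t hp hγ1 hγ2 ht
  obtain ⟨k1, k2, k3⟩ := h6 V (Cn m) p γ t hC hpC hγC ht.1 hγ1
  have hξp2 : ξ (γ + t) ≠ 0 := by
    rw [map_add, hξt, add_zero]
    exact hξγ
  have hp2C : γ + t ∈ Cn m := hp2.1
  obtain ⟨-, w2, -, -, -, -, -⟩ := h1 V (Cn m) (γ + t) hC hp2C
  have hcom2 : ∀ r ∈ Fc (Cn m) (γ + t), r ∈ Fc (Cn m) (p + p1) → ∃ c : ℝ, r = c • t := by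
    intro r hr hr1
    have hξr : ξ r = 0 := h15 V (Cn m) (p + p1) ξ hξ hξpp r (Submodule.subset_span hr1)
    have hrC : r ∈ Cn m := hr.1
    have hrt0 : r + t ≠ 0 := by
      intro h0
      have a1 := he0 r hrC
      have a2 := he t htC ht.2.1
      have a3 : e (r + t) = 0 := by rw [h0, map_zero]
      rw [map_add] at a3
      linarith
    have hrtF : r + t ∈ Fc (Cn m) (γ + t) := w2.add r hr t k2
    have hrtC : r + t ∈ Cn m := hrtF.1
    have hξrt : ξ (r + t) = 0 := by rw [map_add, hξr, hξt, add_zero]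
    have hn : γ + t ∉ Fc (Cn m) (r + t) := by
      intro hin
      exact hξp2 (h15 V (Cn m) (r + t) ξ hξ hξrt (γ + t) (Submodule.subset_span hin))
    obtain ⟨-, -, hh⟩ := h7 V m hm hns (γ + t) (r + t) hp2 ⟨hrtF, hrt0, hn⟩
    obtain ⟨v1, -, v3, -, -, -, -⟩ := h1 V (Cn m) (r + t) hC hrtC
    obtain ⟨hrF, htF⟩ := v3 r hrC t htC v1
    obtain ⟨c, hc⟩ := hh r hrF
    obtain ⟨c', hc'⟩ := hh t htF
    exact line (r + t) r t ht.2.1 c c' hc hc'
  have hS2 : ∀ v ∈ Sp (Cn m) (γ + t), v ∈ Sp (Cn m) (p + p1) → ∃ c : ℝ, v = c • t :=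
    h12 V (Cn m) (γ + t) (p + p1) t hC hp2C hppC (fun x hx => h3 V m hm (γ + t) hp2 x hx) hcom2
  have r42 : Module.finrank ℝ (Sp (Cn m) (γ + t)) = 4 := (h10 V m hm (γ + t) hp2).1
  have hr10 := rank_le (Sp (Cn m) (γ + t)) (Sp (Cn m) (p + p1)) t hS2
  have hr9 := Submodule.finrank_le (Sp (Cn m) (γ + t) ⊔ Sp (Cn m) (p + p1))
  have h9' := hm.rank
  omega

end Pool.Agent.H35.KV.MAX
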